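import Pool.Agent.Helper28_TP.DyS

/-!
# TPM module PAIR: mean number of common visitors of two boxes (MP_e1bfc2_pr)
-/

set_option autoImplicit false

namespace Pool.Agent.TP.H20

open MeasureTheory ProbabilityTheory Pool.Agent.TP

variable {k : ℕ}

instance stepProb (k : ℕ) (s : ℝ) : IsProbabilityMeasure (stepLaw k s) := by
  unfold stepLaw
  infer_instance

instance walkProb (k : ℕ) (s : ℝ) : IsProbabilityMeasure (walkLaw k s) := by
  unfold walkLaw
  infer_instance

/-- first `T` steps from the first sequence, then the second sequence -/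
def spl {k : ℕ} (T : ℕ) (x : (ℕ → Sp k) × (ℕ → Sp k)) : ℕ → Sp k :=
  fun i => if i < T then x.1 i else x.2 (i - T)

theorem spl_meas (T : ℕ) : Measurable (spl (k := k) T) := by
  rw [measurable_pi_iff]
  intro i
  unfold spl
  by_cases h : i < T
  · simp only [h, if_true]
    exact (measurable_pi_apply i).comp measurable_fst
  · simp only [h, if_false]
    exact (measurable_pi_apply (i - T)).comp measurable_snd

theorem spl_law (s : ℝ) (T : ℕ) :
    Measure.map (spl (k := k) T) ((walkLaw k s).prod (walkLaw k s)) = walkLaw k s := by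
  conv_rhs => unfold walkLaw
  apply Measure.eq_infinitePi
  intro S t ht
  rw [Measure.map_apply (spl_meas T) (MeasurableSet.pi S.countable_toSet (fun i _ => ht i))]
  have e : spl (k := k) T ⁻¹' (Set.pi (↑S) t) =
      (Set.pi (↑(S.filter (fun i => i < T))) t) ×ˢ
      (Set.pi (↑((S.filter (fun i => ¬ i < T)).image (fun i => i - T))) (fun j => t (j + T))) := by
    ext x
    simp only [Set.mem_preimage, Set.mem_pi, Finset.mem_coe, Set.mem_prod, Finset.mem_filter,
      Finset.mem_image, spl]
    constructor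
    · intro h
      refine ⟨fun i hi => ?_, ?_⟩
      · have := h i hi.1
        simpa [hi.2] using this
      · rintro j ⟨i, hi, rfl⟩
        have := h i hi.1
        rw [if_neg hi.2] at this
        have e : i - T + T = i := Nat.sub_add_cancel (not_lt.mp hi.2)
        rw [e]
        exact this
    · rintro ⟨h1, h2⟩ i hi
      by_cases hT : i < T
      · simpa [hT] using h1 i ⟨hi, hT⟩
      · rw [if_neg hT]
        have := h2 (i - T) ⟨i, ⟨hi, hT⟩, rfl⟩
        have e : i - T + T = i := Nat.sub_add_cancel (not_lt.mp hT)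
        rwa [e] at this
  rw [e, Measure.prod_prod]
  unfold walkLaw
  rw [Measure.infinitePi_pi _ (fun i _ => ht i), Measure.infinitePi_pi _ (fun i _ => ht (i + T)),
    ← Finset.prod_filter_mul_prod_filter_not S (fun i => i < T)]
  congr 1
  rw [Finset.prod_image]
  · apply Finset.prod_congr rfl
    intro i hi
    simp only [Finset.mem_filter] at hi
    have e : i - T + T = i := Nat.sub_add_cancel (not_lt.mp hi.2)
    rw [e]
  · intro i hi j hj hij
    simp only [Finset.coe_filter, Set.mem_ofPred_eq] at hi hj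
    have h1 := not_lt.mp hi.2
    have h2 := not_lt.mp hj.2
    simp only at hij
    omega

theorem walk_spl (x : Sp k) (T n : ℕ) (hn : T ≤ n) (y : (ℕ → Sp k) × (ℕ → Sp k)) :
    walk x (spl T y) n = walk (walk x y.1 T) y.2 (n - T) := by
  funext a
  unfold walk
  have e : n = T + (n - T) := by omega
  conv_lhs => rw [e, Finset.sum_range_add]
  rw [add_assoc]
  congr 2
  · apply Finset.sum_congr rfl
    intro j hj
    unfold spl
    rw [if_pos (Finset.mem_range.mp hj)]
  · apply Finset.sum_congr rfl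
    intro j _
    unfold spl
    rw [if_neg (by omega), Nat.add_sub_cancel_left]

theorem walk_spl' (x : Sp k) (T : ℕ) (y : (ℕ → Sp k) × (ℕ → Sp k)) :
    walk x (spl T y) T = walk x y.1 T := by
  rw [walk_spl x T T le_rfl y]
  funext a
  simp [walk]

theorem walk_meas (n : ℕ) : Measurable (fun p : Sp k × (ℕ → Sp k) => walk p.1 p.2 n) := by
  unfold walk
  fun_prop

theorem cube_meas (Y : Sp k) (κ : ℝ) : MeasurableSet (cube Y κ) := by
  have : cube Y κ = Set.pi Set.univ (fun a => Set.Ico (Y a) (Y a + κ)) := by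
    ext x
    simp [cube]
  rw [this]
  exact MeasurableSet.univ_pi (fun _ => measurableSet_Ico)

theorem cube_vol (Y : Sp k) {κ : ℝ} (hκ : 0 < κ) :
    volume (cube Y κ) = ENNReal.ofReal (κ ^ (k + 2)) := by
  have : cube Y κ = Set.pi Set.univ (fun a => Set.Ico (Y a) (Y a + κ)) := by
    ext x
    simp [cube]
  rw [this, volume_pi, Measure.pi_pi]
  simp only [Real.volume_Ico, add_sub_cancel_left, Finset.prod_const, Finset.card_univ,
    Fintype.card_fin]
  rw [ENNReal.ofReal_pow hκ.le]

/-- first part -/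
theorem one_box (s : ℝ) (Y : Sp k) {κ : ℝ} (hκ : 0 < κ) (t : ℕ) :
    ∫⁻ x, walkLaw k s {y | walk x y t ∈ cube Y κ} = ENNReal.ofReal (κ ^ (k + 2)) := by
  have hm : MeasurableSet {p : Sp k × (ℕ → Sp k) | walk p.1 p.2 t ∈ cube Y κ} :=
    walk_meas t (cube_meas Y κ)
  have h1 := Measure.prod_apply (μ := (volume : Measure (Sp k))) (ν := walkLaw k s) hm
  have h2 := Measure.prod_apply_symm (μ := (volume : Measure (Sp k))) (ν := walkLaw k s) hm
  have h3 : ∀ y : ℕ → Sp k, volume ((fun x => (x, y)) ⁻¹'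
      {p : Sp k × (ℕ → Sp k) | walk p.1 p.2 t ∈ cube Y κ}) = ENNReal.ofReal (κ ^ (k + 2)) := by
    intro y
    have e : (fun x => (x, y)) ⁻¹' {p : Sp k × (ℕ → Sp k) | walk p.1 p.2 t ∈ cube Y κ} =
        (fun x => x + (fun a => ∑ j ∈ Finset.range t, y j a)) ⁻¹' cube Y κ := by
      ext x
      rfl
    rw [e, measure_preimage_add_right, cube_vol Y hκ]
  have h4 : ∫⁻ x, walkLaw k s {y | walk x y t ∈ cube Y κ} =
      ∫⁻ x, walkLaw k s (Prod.mk x ⁻¹' {p : Sp k × (ℕ → Sp k) | walk p.1 p.2 t ∈ cube Y κ}) := rfl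
  rw [h4, ← h1, h2, lintegral_congr h3]
  simp

theorem gau_bound (hg : GauStmt) {s : ℝ} (hs : 0 < s) {Δ : ℕ} (hΔ : 1 ≤ Δ) (x Y : Sp k) {κ : ℝ}
    (hκ : 0 < κ) : walkLaw k s {y | walk x y Δ ∈ cube Y κ} ≤
      ENNReal.ofReal ((κ / (s * Real.sqrt Δ)) ^ (k + 2)) := by
  rw [hg k s hs Δ hΔ x _ (cube_meas Y κ)]
  have hD : (0 : ℝ) < Δ := by exact_mod_cast hΔ
  have hpos : 0 < s * Real.sqrt Δ := mul_pos hs (Real.sqrt_pos.mpr hD)
  calc (∫⁻ z in cube Y κ, ENNReal.ofReal (∏ a, Real.exp (-(z a - x a) ^ 2 /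
          (2 * (s ^ 2 * Δ))) / Real.sqrt (2 * Real.pi * (s ^ 2 * Δ))))
      ≤ (∫⁻ _ in cube Y κ, ENNReal.ofReal ((1 / (s * Real.sqrt Δ)) ^ (k + 2))) := by
        apply lintegral_mono
        intro z
        apply ENNReal.ofReal_le_ofReal
        have h1 : ∀ a : Fin (k + 2), Real.exp (-(z a - x a) ^ 2 / (2 * (s ^ 2 * Δ))) /
            Real.sqrt (2 * Real.pi * (s ^ 2 * Δ)) ≤ 1 / (s * Real.sqrt Δ) := by
          intro a
          have h2 : Real.exp (-(z a - x a) ^ 2 / (2 * (s ^ 2 * Δ))) ≤ 1 := by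
            rw [Real.exp_le_one_iff]
            apply div_nonpos_of_nonpos_of_nonneg
            · nlinarith [sq_nonneg (z a - x a)]
            · positivity
          have h3 : s * Real.sqrt Δ ≤ Real.sqrt (2 * Real.pi * (s ^ 2 * Δ)) := by
            apply Real.le_sqrt_of_sq_le
            rw [mul_pow, Real.sq_sqrt hD.le]
            have h4 := Real.pi_gt_three
            have h5 : 0 < s ^ 2 * Δ := by positivity
            nlinarith
          have h6 : 0 < Real.sqrt (2 * Real.pi * (s ^ 2 * Δ)) := lt_of_lt_of_le hpos h3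
          rw [div_le_div_iff₀ h6 hpos]
          have h7 := Real.exp_pos (-(z a - x a) ^ 2 / (2 * (s ^ 2 * Δ)))
          nlinarith
        calc ∏ a : Fin (k + 2), Real.exp (-(z a - x a) ^ 2 / (2 * (s ^ 2 * Δ))) /
            Real.sqrt (2 * Real.pi * (s ^ 2 * Δ)) ≤ ∏ _a : Fin (k + 2), 1 / (s * Real.sqrt Δ) :=
              Finset.prod_le_prod (fun a _ => by positivity) (fun a _ => h1 a)
          _ = (1 / (s * Real.sqrt Δ)) ^ (k + 2) := by simp
    _ = ENNReal.ofReal ((1 / (s * Real.sqrt Δ)) ^ (k + 2)) * ENNReal.ofReal (κ ^ (k + 2)) := by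
        rw [setLIntegral_const, cube_vol Y hκ]
    _ = ENNReal.ofReal ((κ / (s * Real.sqrt Δ)) ^ (k + 2)) := by
        rw [← ENNReal.ofReal_mul (by positivity), ← mul_pow]
        congr 2
        field_simp

theorem pair (hg : GauStmt) : PairStmt := by
  intro k s hs Y Y' κ κ' t t' hκ hκ'
  refine ⟨?_, ?_⟩
  · rw [← one_box s Y hκ t]
    apply lintegral_mono
    intro x
    apply measure_mono
    intro y hy
    exact hy.1
  · intro htt
    have hD : 1 ≤ t' - t := by omega
    have hcast : ((t' - t : ℕ) : ℝ) = (t' : ℝ) - t := by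
      rw [Nat.cast_sub htt.le]
    have key : ∀ x : Sp k, walkLaw k s {y | walk x y t ∈ cube Y κ ∧ walk x y t' ∈ cube Y' κ'} ≤
        walkLaw k s {y | walk x y t ∈ cube Y κ} *
          ENNReal.ofReal ((κ' / (s * Real.sqrt (t' - t))) ^ (k + 2)) := by
      intro x
      have hwm : ∀ n, Measurable (fun y : ℕ → Sp k => walk x y n) := fun n =>
        (walk_meas n).comp (measurable_const.prodMk measurable_id)
      have hm : MeasurableSet {y : ℕ → Sp k | walk x y t ∈ cube Y κ ∧ walk x y t' ∈ cube Y' κ'} :=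
        ((hwm t) (cube_meas Y κ)).inter ((hwm t') (cube_meas Y' κ'))
      conv_lhs => rw [← spl_law s t]
      rw [Measure.map_apply (spl_meas t) hm, Measure.prod_apply (spl_meas t hm)]
      have h1 : ∀ y : ℕ → Sp k, walkLaw k s (Prod.mk y ⁻¹' (spl t ⁻¹'
          {y | walk x y t ∈ cube Y κ ∧ walk x y t' ∈ cube Y' κ'})) ≤
          Set.indicator {y | walk x y t ∈ cube Y κ}
            (fun _ => ENNReal.ofReal ((κ' / (s * Real.sqrt (t' - t))) ^ (k + 2))) y := by
        intro y
        by_cases hy : walk x y t ∈ cube Y κ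
        · rw [Set.indicator_of_mem (by exact hy), ← hcast]
          refine le_trans (measure_mono ?_) (gau_bound hg hs hD (walk x y t) Y' hκ')
          intro y' hy'
          have h2 : walk x (spl t (y, y')) t' ∈ cube Y' κ' := hy'.2
          rw [walk_spl x t t' htt.le] at h2
          exact h2
        · have h2 : (Prod.mk y ⁻¹' (spl t ⁻¹'
              {y | walk x y t ∈ cube Y κ ∧ walk x y t' ∈ cube Y' κ'})) = (∅ : Set (ℕ → Sp k)) := by
            ext y'
            simp only [Set.mem_preimage, Set.mem_empty_iff_false, iff_false]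
            intro h3
            apply hy
            have h4 : walk x (spl t (y, y')) t ∈ cube Y κ := h3.1
            rwa [walk_spl' x t] at h4
          rw [h2]
          simp
      refine le_trans (lintegral_mono h1) ?_
      have hm1 : MeasurableSet {y : ℕ → Sp k | walk x y t ∈ cube Y κ} := (hwm t) (cube_meas Y κ)
      rw [lintegral_indicator hm1, setLIntegral_const, mul_comm]
    refine le_trans (lintegral_mono key) ?_
    rw [lintegral_mul_const', one_box s Y hκ t, ← ENNReal.ofReal_mul (by positivity)]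
    exact ENNReal.ofReal_ne_top

end Pool.Agent.TP.H20
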